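import Pool.Agent.helper68.QZ.Spec

set_option autoImplicit false

namespace Pool.Agent.QZ

open N1f72dd46 Filter MeasureTheory Complex Metric Pool.Agent.helper6.LD
open scoped ComplexConjugate

theorem LT_norm_exp (σ t0 : ℝ) (s : ℂ) :
    ‖Complex.exp ((s - ((σ : ℂ) + t0 * I)) ^ 2)‖ =
      Real.exp ((s.re - σ) ^ 2 - (s.im - t0) ^ 2) := by
  rw [Complex.norm_exp]
  have e : ((s - ((σ : ℂ) + t0 * I)) ^ 2).re = (s.re - σ) ^ 2 - (s.im - t0) ^ 2 := by
    simp [sq, Complex.mul_re]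
  rw [e]

theorem LT_gauss (B : ℕ) (t0 y : ℝ) :
    (1 + |y|) ^ B * Real.exp (-(y - t0) ^ 2) ≤
      (1 + |t0|) ^ B * ((B.factorial : ℝ) * Real.exp 2) := by
  obtain ⟨x, hx⟩ : ∃ x : ℝ, x = |y - t0| := ⟨_, rfl⟩
  have hx0 : 0 ≤ x := by rw [hx]; exact abs_nonneg _
  have hsq : (y - t0) ^ 2 = x ^ 2 := by rw [hx, sq_abs]
  have h1 : 1 + |y| ≤ (1 + |t0|) * (1 + x) := by
    have h2 : |y| ≤ x + |t0| := by
      have e : y = (y - t0) + t0 := by ring
      calc |y| = |(y - t0) + t0| := by rw [← e]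
        _ ≤ |y - t0| + |t0| := abs_add_le _ _
        _ = x + |t0| := by rw [hx]
    have h3 : 0 ≤ |t0| * x := mul_nonneg (abs_nonneg _) hx0
    nlinarith [h2, h3]
  have h4 : (1 + |y|) ^ B ≤ (1 + |t0|) ^ B * (1 + x) ^ B := by
    rw [← mul_pow]
    exact pow_le_pow_left₀ (by positivity) h1 B
  have h5 : (1 + x) ^ B ≤ (B.factorial : ℝ) * Real.exp (1 + x) := by
    have h6 := Real.pow_div_factorial_le_exp (1 + x) (by positivity) B
    rwa [div_le_iff₀ (by positivity), mul_comm] at h6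
  have h7 : Real.exp (1 + x) * Real.exp (-x ^ 2) ≤ Real.exp 2 := by
    rw [← Real.exp_add]
    apply Real.exp_le_exp.2
    nlinarith [sq_nonneg (x - 1 / 2)]
  rw [hsq]
  calc (1 + |y|) ^ B * Real.exp (-x ^ 2)
      ≤ ((1 + |t0|) ^ B * ((B.factorial : ℝ) * Real.exp (1 + x))) * Real.exp (-x ^ 2) := by
        apply mul_le_mul_of_nonneg_right _ (Real.exp_pos _).le
        exact h4.trans (mul_le_mul_of_nonneg_left h5 (by positivity))
    _ = (1 + |t0|) ^ B * ((B.factorial : ℝ) * (Real.exp (1 + x) * Real.exp (-x ^ 2))) := by ring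
    _ ≤ (1 + |t0|) ^ B * ((B.factorial : ℝ) * Real.exp 2) := by
        apply mul_le_mul_of_nonneg_left _ (by positivity)
        exact mul_le_mul_of_nonneg_left h7 (by positivity)

theorem LT : LT_stmt := by
  intro f a b Ma Mb t0 σ hab hMa hMb hdiff hgrow hA hB haσ hσb
  obtain ⟨C, B, hC⟩ := hgrow
  obtain ⟨s0, hs0⟩ : ∃ s0 : ℂ, s0 = (σ : ℂ) + t0 * I := ⟨_, rfl⟩
  have hs0re : s0.re = σ := by rw [hs0]; simp
  have hs0im : s0.im = t0 := by rw [hs0]; simp
  obtain ⟨F, hF⟩ : ∃ F : ℂ → ℂ, F = fun s => f s * Complex.exp ((s - ((σ : ℂ) + t0 * I)) ^ 2) :=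
    ⟨_, rfl⟩
  have hFd : ∀ s : ℂ, a ≤ s.re → s.re ≤ b → DifferentiableAt ℂ F s := by
    intro s h1 h2
    rw [hF]
    have h3 : DifferentiableAt ℂ (fun s : ℂ => Complex.exp ((s - ((σ : ℂ) + t0 * I)) ^ 2)) s := by
      fun_prop
    exact (hdiff s h1 h2).mul h3
  have hnorm : ∀ s : ℂ, ‖F s‖ = ‖f s‖ * Real.exp ((s.re - σ) ^ 2 - (s.im - t0) ^ 2) := by
    intro s
    rw [hF]
    show ‖f s * Complex.exp ((s - ((σ : ℂ) + t0 * I)) ^ 2)‖ = _
    rw [norm_mul, LT_norm_exp]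
  have hcl : closure (HadamardThreeLines.verticalStrip a b) ⊆
      HadamardThreeLines.verticalClosedStrip a b := by
    apply closure_minimal
    · intro s hs
      exact ⟨hs.1.le, hs.2.le⟩
    · exact isClosed_Icc.preimage Complex.continuous_re
  have hd : DiffContOnCl ℂ F (HadamardThreeLines.verticalStrip a b) := by
    constructor
    · intro s hs
      exact (hFd s hs.1.le hs.2.le).differentiableWithinAt
    · intro s hs
      have h := hcl hs
      exact (hFd s h.1 h.2).continuousAt.continuousWithinAt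
  have hsqle : ∀ x : ℝ, a ≤ x → x ≤ b → (x - σ) ^ 2 ≤ (b - a) ^ 2 := by
    intro x h1 h2
    apply sq_le_sq'
    · linarith
    · linarith
  have hbdd : BddAbove ((norm ∘ F) '' HadamardThreeLines.verticalClosedStrip a b) := by
    refine ⟨|C| * ((1 + |t0|) ^ B * ((B.factorial : ℝ) * Real.exp 2)) * Real.exp ((b - a) ^ 2), ?_⟩
    rintro _ ⟨s, hs, rfl⟩
    show ‖F s‖ ≤ _
    rw [hnorm]
    have h1 := hC s hs.1 hs.2
    have h2 : ‖f s‖ ≤ |C| * (1 + |s.im|) ^ B :=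
      h1.trans (mul_le_mul_of_nonneg_right (le_abs_self C) (by positivity))
    have h3 : Real.exp ((s.re - σ) ^ 2 - (s.im - t0) ^ 2) ≤
        Real.exp ((b - a) ^ 2) * Real.exp (-(s.im - t0) ^ 2) := by
      rw [← Real.exp_add]
      apply Real.exp_le_exp.2
      have := hsqle s.re hs.1 hs.2
      linarith
    have h4 := LT_gauss B t0 s.im
    calc ‖f s‖ * Real.exp ((s.re - σ) ^ 2 - (s.im - t0) ^ 2)
        ≤ (|C| * (1 + |s.im|) ^ B) * (Real.exp ((b - a) ^ 2) * Real.exp (-(s.im - t0) ^ 2)) :=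
          mul_le_mul h2 h3 (Real.exp_pos _).le (by positivity)
      _ = |C| * ((1 + |s.im|) ^ B * Real.exp (-(s.im - t0) ^ 2)) * Real.exp ((b - a) ^ 2) := by ring
      _ ≤ |C| * ((1 + |t0|) ^ B * ((B.factorial : ℝ) * Real.exp 2)) * Real.exp ((b - a) ^ 2) := by
          apply mul_le_mul_of_nonneg_right _ (Real.exp_pos _).le
          exact mul_le_mul_of_nonneg_left h4 (abs_nonneg C)
  have hE : 0 < Real.exp ((b - a) ^ 2) := Real.exp_pos _
  have edge : ∀ (x M : ℝ), a ≤ x → x ≤ b → 0 < M →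
      (∀ t : ℝ, ‖f ((x : ℂ) + t * I)‖ ≤ M * Real.exp ((t - t0) ^ 2)) →
      ∀ s ∈ Complex.re ⁻¹' {x}, ‖F s‖ ≤ Real.exp ((b - a) ^ 2) * M := by
    intro x M h1 h2 hM hxM s hs
    have hre : s.re = x := hs
    have hseq : s = (x : ℂ) + s.im * I := by
      rw [← hre]
      exact (Complex.re_add_im s).symm
    have h3 := hxM s.im
    rw [← hseq] at h3
    rw [hnorm, hre]
    calc ‖f s‖ * Real.exp ((x - σ) ^ 2 - (s.im - t0) ^ 2)
        ≤ (M * Real.exp ((s.im - t0) ^ 2)) * Real.exp ((x - σ) ^ 2 - (s.im - t0) ^ 2) :=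
          mul_le_mul_of_nonneg_right h3 (Real.exp_pos _).le
      _ = Real.exp ((x - σ) ^ 2) * M := by
          rw [mul_assoc, ← Real.exp_add, mul_comm]
          congr 2
          ring
      _ ≤ Real.exp ((b - a) ^ 2) * M := by
          apply mul_le_mul_of_nonneg_right _ hM.le
          exact Real.exp_le_exp.2 (hsqle x h1 h2)
  have key := HadamardThreeLines.norm_le_interp_of_mem_verticalClosedStrip' (f := F) (z := s0)
    (a := Real.exp ((b - a) ^ 2) * Ma) (b := Real.exp ((b - a) ^ 2) * Mb) hab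
    (by
      show s0.re ∈ Set.Icc a b
      rw [hs0re]; exact ⟨haσ, hσb⟩) hd hbdd
    (edge a Ma le_rfl hab.le hMa hA) (edge b Mb hab.le le_rfl hMb hB)
  have hFs0 : ‖F s0‖ = ‖f s0‖ := by
    rw [hnorm, hs0re, hs0im]
    simp
  rw [hFs0, hs0re] at key
  rw [hs0] at key
  have hba : b - a ≠ 0 := by linarith
  have e1 : 1 - (σ - a) / (b - a) = (b - σ) / (b - a) := by
    field_simp
    ring
  rw [e1, Real.mul_rpow hE.le hMa.le, Real.mul_rpow hE.le hMb.le] at key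
  have e2 : Real.exp ((b - a) ^ 2) ^ ((b - σ) / (b - a)) *
      Real.exp ((b - a) ^ 2) ^ ((σ - a) / (b - a)) = Real.exp ((b - a) ^ 2) := by
    rw [← Real.rpow_add hE]
    have e3 : (b - σ) / (b - a) + (σ - a) / (b - a) = 1 := by
      rw [← add_div]
      have e4 : b - σ + (σ - a) = b - a := by ring
      rw [e4, div_self hba]
    rw [e3, Real.rpow_one]
  calc ‖f ((σ : ℂ) + t0 * I)‖
      ≤ Real.exp ((b - a) ^ 2) ^ ((b - σ) / (b - a)) * Ma ^ ((b - σ) / (b - a)) *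
        (Real.exp ((b - a) ^ 2) ^ ((σ - a) / (b - a)) * Mb ^ ((σ - a) / (b - a))) := key
    _ = (Real.exp ((b - a) ^ 2) ^ ((b - σ) / (b - a)) *
        Real.exp ((b - a) ^ 2) ^ ((σ - a) / (b - a))) * Ma ^ ((b - σ) / (b - a)) *
        Mb ^ ((σ - a) / (b - a)) := by ring
    _ = Real.exp ((b - a) ^ 2) * Ma ^ ((b - σ) / (b - a)) * Mb ^ ((σ - a) / (b - a)) := by
        rw [e2]

end Pool.Agent.QZ
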