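import Pool.Agent.helper68.QZ.Spec
import Pool.Agent.helper53.EQ.LBC

set_option autoImplicit false

namespace Pool.Agent.QZ

open N1f72dd46 Filter MeasureTheory Complex Metric Pool.Agent.helper6.LD
open scoped ComplexConjugate

theorem MM (hMR : MR_stmt) : MM_stmt := by
  obtain ⟨C0, hC0, hMR⟩ := hMR
  have hlog : 0 < Real.log (5 / 4) := Real.log_pos (by norm_num)
  have hlog4 : 0 < Real.log 4 := Real.log_pos (by norm_num)
  obtain ⟨K1, hK1⟩ : ∃ K1 : ℝ, K1 = 1 + Real.log 4 / Real.log (5 / 4) := ⟨_, rfl⟩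
  obtain ⟨K2, hK2⟩ : ∃ K2 : ℝ, K2 = 1 / Real.log (5 / 4) := ⟨_, rfl⟩
  have hK1pos : 0 < K1 := by rw [hK1]; positivity
  have hK2pos : 0 < K2 := by rw [hK2]; positivity
  refine ⟨C0 * K2 + 6 * K1 + K2 * Real.log 4, by positivity, ?_⟩
  intro f c R B hR hB hf hfc hbd
  have hR4 : 0 < 4 * R := by linarith
  obtain ⟨S, g, hS, hg, hfg, hgne, hN, hgb⟩ :=
    Pool.Agent.EQ.helper53_g (R := 4 * R) (R' := 5 * R) hR4 (by linarith) hB hf hfc hbd
  obtain ⟨m, hm⟩ : ∃ m : ℂ → ℕ, m = fun ρ => analyticOrderNatAt f ρ := ⟨_, rfl⟩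
  have hmρ : ∀ ρ, analyticOrderNatAt f ρ = m ρ := fun ρ => by rw [hm]
  simp only [hmρ] at hfg hN
  obtain ⟨N, hNdef⟩ : ∃ N : ℕ, N = ∑ ρ ∈ S, m ρ := ⟨_, rfl⟩
  rw [← hNdef] at hN
  have hq : 5 * R / (4 * R) = 5 / 4 := by field_simp
  have hq2 : 4 * R / (5 * R - 4 * R) = 4 := by
    have : 5 * R - 4 * R = R := by ring
    rw [this]; field_simp
  rw [hq] at hN
  rw [hq, hq2, max_eq_right hlog4.le, ← hK1] at hgb
  have hN' : (N : ℝ) ≤ B * K2 := by
    rw [hK2, mul_one_div]; exact hN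
  obtain ⟨r, hr2, hr3, hr⟩ := hMR R S m (fun ρ => ‖ρ - c‖) hR (by
    intro ρ hρ
    have h := ((hS ρ).1 hρ).1
    rw [mem_closedBall_iff_norm] at h
    exact ⟨norm_nonneg _, h⟩)
  rw [← hNdef] at hr
  refine ⟨r, hr2, hr3, ?_⟩
  intro z hz
  have hzball : z ∈ closedBall c (5 * R) := by
    rw [mem_closedBall_iff_norm]; linarith
  have hcball : c ∈ closedBall c (5 * R) := mem_closedBall_self (by linarith)
  have hgz := Pool.Agent.EQ.helper53_low (R := 4 * R) (r := 3 * R) (B := B * K1) (g := g) (c := c)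
    hR4 (by linarith) (by linarith) (mul_pos hB hK1pos)
    (hg.mono (ball_subset_closedBall.trans (closedBall_subset_closedBall (by linarith))))
    (fun w hw => hgne w (ball_subset_closedBall hw)) hgb (z := z) (by linarith)
  have hq3 : 2 * (B * K1) * (3 * R) / (4 * R - 3 * R) = 6 * K1 * B := by
    have : 4 * R - 3 * R = R := by ring
    rw [this]
    field_simp
    ring
  rw [hq3] at hgz
  have hfz : ‖f z‖ = (∏ ρ ∈ S, ‖z - ρ‖ ^ m ρ) * ‖g z‖ := by
    rw [hfg z hzball, norm_mul, norm_prod]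
    congr 1
    exact Finset.prod_congr rfl (fun ρ _ => norm_pow _ _)
  have hfcn : ‖f c‖ = (∏ ρ ∈ S, ‖c - ρ‖ ^ m ρ) * ‖g c‖ := by
    rw [hfg c hcball, norm_mul, norm_prod]
    congr 1
    exact Finset.prod_congr rfl (fun ρ _ => norm_pow _ _)
  have hprod1 : R ^ N * Real.exp (-(C0 * N)) ≤ ∏ ρ ∈ S, ‖z - ρ‖ ^ m ρ := by
    have e1 : R ^ N = ∏ ρ ∈ S, R ^ m ρ := by
      rw [hNdef, Finset.prod_pow_eq_pow_sum]
    calc R ^ N * Real.exp (-(C0 * N)) ≤ R ^ N * ∏ ρ ∈ S, (|r - ‖ρ - c‖| / R) ^ m ρ :=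
          mul_le_mul_of_nonneg_left hr (by positivity)
      _ = ∏ ρ ∈ S, |r - ‖ρ - c‖| ^ m ρ := by
          rw [e1, ← Finset.prod_mul_distrib]
          apply Finset.prod_congr rfl
          intro ρ _
          rw [← mul_pow, mul_div_cancel₀ _ hR.ne']
      _ ≤ ∏ ρ ∈ S, ‖z - ρ‖ ^ m ρ := by
          apply Finset.prod_le_prod
          · intro ρ _; positivity
          · intro ρ _
            apply pow_le_pow_left₀ (abs_nonneg _)
            have h1 := abs_norm_sub_norm_le (z - c) (ρ - c)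
            rw [hz] at h1
            have e2 : z - c - (ρ - c) = z - ρ := by ring
            rwa [e2] at h1
  have hprod2 : ∏ ρ ∈ S, ‖c - ρ‖ ^ m ρ ≤ (4 * R) ^ N := by
    rw [hNdef, ← Finset.prod_pow_eq_pow_sum]
    apply Finset.prod_le_prod
    · intro ρ _; positivity
    · intro ρ hρ
      apply pow_le_pow_left₀ (norm_nonneg _)
      have h := ((hS ρ).1 hρ).1
      rw [mem_closedBall_iff_norm, norm_sub_rev] at h
      exact h
  have hgc : 0 ≤ ‖g c‖ := norm_nonneg _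
  have hfc2 : ‖f c‖ ≤ (4 * R) ^ N * ‖g c‖ := by
    rw [hfcn]
    exact mul_le_mul_of_nonneg_right hprod2 hgc
  have h4N : Real.exp (-(N * Real.log 4)) * (4 * R) ^ N = R ^ N := by
    rw [mul_pow, ← mul_assoc]
    have e : Real.exp (-(N * Real.log 4)) * 4 ^ N = 1 := by
      rw [Real.exp_neg, Real.exp_nat_mul, Real.exp_log (by norm_num)]
      exact inv_mul_cancel₀ (by positivity)
    rw [e, one_mul]
  have hexp : Real.exp (-((C0 * K2 + 6 * K1 + K2 * Real.log 4) * B)) ≤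
      Real.exp (-(N * Real.log 4)) * (Real.exp (-(C0 * N)) * Real.exp (-(6 * K1 * B))) := by
    rw [← Real.exp_add, ← Real.exp_add]
    apply Real.exp_le_exp.2
    have h1 : (N : ℝ) * Real.log 4 ≤ B * K2 * Real.log 4 :=
      mul_le_mul_of_nonneg_right hN' hlog4.le
    have h2 : C0 * N ≤ C0 * (B * K2) := mul_le_mul_of_nonneg_left hN' hC0.le
    linarith
  calc Real.exp (-((C0 * K2 + 6 * K1 + K2 * Real.log 4) * B)) * ‖f c‖
      ≤ (Real.exp (-(N * Real.log 4)) * (Real.exp (-(C0 * N)) * Real.exp (-(6 * K1 * B)))) *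
        ((4 * R) ^ N * ‖g c‖) :=
        mul_le_mul hexp hfc2 (norm_nonneg _) (by positivity)
    _ = (Real.exp (-(N * Real.log 4)) * (4 * R) ^ N) * Real.exp (-(C0 * N)) *
        (Real.exp (-(6 * K1 * B)) * ‖g c‖) := by ring
    _ = (R ^ N * Real.exp (-(C0 * N))) * (Real.exp (-(6 * K1 * B)) * ‖g c‖) := by rw [h4N]
    _ ≤ (∏ ρ ∈ S, ‖z - ρ‖ ^ m ρ) * ‖g z‖ :=
        mul_le_mul hprod1 hgz (by positivity) (Finset.prod_nonneg (fun ρ _ => by positivity))
    _ = ‖f z‖ := hfz.symm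

end Pool.Agent.QZ
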